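import Mathlib
import Pool.Agent.X81.ErdosGallai

set_option autoImplicit false

open Finset

namespace Pool.Agent.Results.MP_5122c5_co.ExactThreshold

/-- `a 0, …, a (n-1)` is graphic: it is the degree sequence of a finite simple graph on `n`
vertices. -/
def Graphic (n : ℕ) (a : ℕ → ℕ) : Prop :=
  ∃ G : SimpleGraph (Fin n), ∀ i : Fin n, (G.neighborSet i).ncard = a i

/-- The lists of length `n` in `L(k,s,d)`, written in nonincreasing order as
`a 0, …, a (n-1)`: largest term `k`, smallest term `s`, even sum, gaps at most `d`. -/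
structure InL (k s d n : ℕ) (a : ℕ → ℕ) : Prop where
  pos : 0 < n
  first : a 0 = k
  last : a (n - 1) = s
  anti : ∀ i, i + 1 < n → a (i + 1) ≤ a i
  gap : ∀ i, i + 1 < n → a i - a (i + 1) ≤ d
  even : Even (∑ i ∈ range n, a i)

/-- The `N` such that every list in `L(k,s,d)` of length at least `N` is graphic. -/
def Good (k s d : ℕ) : Set ℕ := {N | ∀ n, N ≤ n → ∀ a : ℕ → ℕ, InL k s d n a → Graphic n a}

/-- The graphicality threshold. -/
noncomputable def threshold (k s d : ℕ) : ℕ := sInf (Good k s d)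

/-! ### basic facts on lists -/

section Lists

variable {k s d n : ℕ} {a : ℕ → ℕ}

lemma InL.mono (h : InL k s d n a) (p j : ℕ) (hp : p + j < n) : a (p + j) ≤ a p := by
  induction j with
  | zero => exact le_rfl
  | succ j ih =>
    have h1 := h.anti (p + j) (by omega)
    have h2 := ih (by omega)
    exact h1.trans h2

lemma InL.tele (h : InL k s d n a) (p j : ℕ) (hp : p + j < n) : a p ≤ a (p + j) + j * d := by
  induction j with
  | zero => simp
  | succ j ih =>
    have h1 := h.gap (p + j) (by omega)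
    have h2 := ih (by omega)
    have h3 : (j + 1) * d = j * d + d := by ring
    have h4 : p + (j + 1) = p + j + 1 := by ring
    rw [h3, h4]
    omega

lemma InL.le_k (h : InL k s d n a) (p : ℕ) (hp : p < n) : a p ≤ k := by
  have := h.mono 0 p (by omega)
  rw [zero_add, h.first] at this
  exact this

lemma InL.ge_s (h : InL k s d n a) (p : ℕ) (hp : p < n) : s ≤ a p := by
  have := h.mono p (n - 1 - p) (by omega)
  rw [show p + (n - 1 - p) = n - 1 by omega, h.last] at this
  exact this

end Lists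

/-- linear lower bound for a sum of nonnegative terms dominating `x - i d` -/
lemma sumLow (f : ℕ → ℤ) (m : ℕ) (x d : ℤ) (hd : 0 ≤ d) (hf0 : ∀ i, i < m → 0 ≤ f i)
    (hf : ∀ i, i < m → x - i * d ≤ f i) (hx : x - m * d ≤ 0) (α : ℕ) :
    2 * α * x - d * (α * (α - 1)) ≤ 2 * ∑ i ∈ range m, f i := by
  have hsum : ∀ α : ℕ, 2 * ∑ i ∈ range α, (x - i * d) = 2 * α * x - d * (α * (α - 1)) := by
    intro α
    induction α with
    | zero => simp
    | succ α ih =>
      rw [sum_range_succ, mul_add, ih]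
      push_cast
      ring
  rw [← hsum α]
  let g : ℕ → ℤ := fun i => if i < m then f i else 0
  have h1 : ∑ i ∈ range α, (x - i * d) ≤ ∑ i ∈ range α, g i := by
    apply sum_le_sum
    intro i _
    by_cases hi : i < m
    · simp only [g, hi, if_true]; exact hf i hi
    · simp only [g, hi, if_false]
      have : (m : ℤ) ≤ i := by exact_mod_cast (not_lt.1 hi)
      nlinarith
  have h2 : ∑ i ∈ range α, g i ≤ ∑ i ∈ range (m + α), g i := by
    apply sum_le_sum_of_subset_of_nonneg
    · intro i hi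
      rw [mem_range] at hi ⊢
      omega
    · intro i _ _
      by_cases hi : i < m
      · simp only [g, hi, if_true]; exact hf0 i hi
      · simp only [g, hi, if_false]; exact le_rfl
  have h3 : ∑ i ∈ range (m + α), g i = ∑ i ∈ range m, f i := by
    rw [sum_range_add]
    have e1 : ∑ i ∈ range m, g i = ∑ i ∈ range m, f i := by
      apply sum_congr rfl
      intro i hi
      rw [mem_range] at hi
      simp only [g, hi, if_true]
    have e2 : ∑ i ∈ range α, g (m + i) = 0 := by
      apply sum_eq_zero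
      intro i _
      have : ¬ (m + i < m) := by omega
      simp only [g, this, if_false]
    rw [e1, e2, add_zero]
  linarith

/-- linear upper bound for a sum of positive parts -/
lemma sumHigh (f : ℕ → ℤ) (m : ℕ) (x d : ℤ) (hd : 0 ≤ d) (A : ℕ)
    (hf : ∀ i, i < m → f i ≤ max 0 (x - i * d)) (hx1 : (A - 1) * d ≤ x) (hx2 : x ≤ A * d) :
    2 * ∑ i ∈ range m, f i ≤ 2 * A * x - d * (A * (A - 1)) := by
  have hsum : ∀ α : ℕ, 2 * ∑ i ∈ range α, (x - i * d) = 2 * α * x - d * (α * (α - 1)) := by
    intro α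
    induction α with
    | zero => simp
    | succ α ih =>
      rw [sum_range_succ, mul_add, ih]
      push_cast
      ring
  rw [← hsum A]
  have h1 : ∑ i ∈ range m, f i ≤ ∑ i ∈ range m, max 0 (x - i * d) := by
    apply sum_le_sum
    intro i hi
    exact hf i (mem_range.1 hi)
  have h2 : ∑ i ∈ range m, max 0 (x - i * d) ≤ ∑ i ∈ range (A + m), max 0 (x - i * d) := by
    apply sum_le_sum_of_subset_of_nonneg
    · intro i hi
      rw [mem_range] at hi ⊢
      omega
    · intro i _ _
      exact le_max_left _ _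
  have h3 : ∑ i ∈ range (A + m), max 0 (x - i * d) = ∑ i ∈ range A, (x - i * d) := by
    rw [sum_range_add]
    have e1 : ∑ i ∈ range A, max 0 (x - i * d) = ∑ i ∈ range A, (x - i * d) := by
      apply sum_congr rfl
      intro i hi
      rw [mem_range] at hi
      apply max_eq_right
      have : (i : ℤ) ≤ A - 1 := by
        have : (i : ℤ) < A := by exact_mod_cast hi
        omega
      nlinarith
    have e2 : ∑ i ∈ range m, max 0 (x - ((A + i : ℕ) : ℤ) * d) = 0 := by
      apply sum_eq_zero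
      intro i _
      apply max_eq_left
      push_cast
      nlinarith [mul_nonneg (Int.natCast_nonneg i) hd]
    rw [e1, e2, add_zero]
  linarith

/-! ### Erdős–Gallai in both directions -/

lemma graphic_of_EG {n : ℕ} {a : ℕ → ℕ} (hanti : ∀ i, i + 1 < n → a (i + 1) ≤ a i)
    (heven : Even (∑ i ∈ range n, a i))
    (hEG : ∀ r, 1 ≤ r → r ≤ n → ∑ i ∈ range r, (a i : ℤ) ≤ r * (r - 1) +
      ∑ i ∈ range (n - r), min (r : ℤ) (a (r + i))) : Graphic n a := by
  have hmono : ∀ p j, p + j < n → a (p + j) ≤ a p := by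
    intro p j
    induction j with
    | zero => intro _; exact le_rfl
    | succ j ih => intro h; exact (hanti (p + j) (by omega)).trans (ih (by omega))
  obtain ⟨H, hH⟩ := Pool.Agent.X81.ErdosGallai.erdos_gallai_fin (fun i : Fin n => a i)
    (by
      intro i j hij
      have h1 := hmono i (j - i) (by have := j.2; have : (i : ℕ) ≤ j := hij; omega)
      have h2 : (i : ℕ) + (j - i) = j := by have : (i : ℕ) ≤ j := hij; omega
      rw [h2] at h1
      exact h1)
    (by rw [Fin.sum_univ_eq_sum_range (fun i => a i) n]; exact heven)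
    (by
      intro v
      have h1 := hEG (v + 1) (by omega) (by have := v.2; omega)
      have e1 : ∑ i ∈ univ.filter (fun i : Fin n => i ≤ v), a i = ∑ i ∈ range (v + 1), a i := by
        rw [← sum_image (s := univ.filter (fun i : Fin n => i ≤ v)) (g := fun i : Fin n => (i : ℕ))
          (f := a) (by intro x _ y _ hxy; exact Fin.ext hxy)]
        congr 1
        ext x
        simp only [mem_image, mem_filter, mem_univ, true_and, mem_range]
        constructor
        · rintro ⟨y, hy, rfl⟩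
          have : (y : ℕ) ≤ v := hy
          omega
        · intro hx
          refine ⟨⟨x, by have := v.2; omega⟩, ?_, rfl⟩
          rw [Fin.le_def]
          change x ≤ v
          omega
      have e2 : ∑ i ∈ univ.filter (fun i : Fin n => ¬ i ≤ v), min ((v : ℕ) + 1) (a i) =
          ∑ i ∈ range (n - (v + 1)), min ((v : ℕ) + 1) (a (v + 1 + i)) := by
        symm
        apply sum_bij (fun i (hi : i ∈ range (n - ((v : ℕ) + 1))) =>
          (⟨(v : ℕ) + 1 + i, by rw [mem_range] at hi; omega⟩ : Fin n))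
        · intro i _
          rw [mem_filter]
          refine ⟨mem_univ _, ?_⟩
          rw [Fin.le_def]
          change ¬ ((v : ℕ) + 1 + i ≤ v)
          omega
        · intro i _ j _ hij
          have := congrArg Fin.val hij
          simp only at this
          omega
        · intro y hy
          rw [mem_filter, Fin.le_def] at hy
          have hy2 := hy.2
          refine ⟨(y : ℕ) - (v + 1), ?_, ?_⟩
          · rw [mem_range]
            have := y.2
            omega
          · apply Fin.ext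
            change (v : ℕ) + 1 + ((y : ℕ) - (v + 1)) = y
            omega
        · intro i _
          rfl
      rw [e1, e2]
      have h2 : ((∑ i ∈ range ((v : ℕ) + 1), a i : ℕ) : ℤ) ≤
          (((v + 1) * v + ∑ i ∈ range (n - (v + 1)), min ((v : ℕ) + 1) (a (v + 1 + i)) : ℕ) : ℤ) := by
        push_cast
        push_cast at h1
        have : ((v : ℕ) : ℤ) + 1 - 1 = (v : ℕ) := by ring
        rw [this] at h1
        exact h1
      exact_mod_cast h2)
  refine ⟨H, fun i => ?_⟩
  rw [← hH i]
  unfold Pool.Agent.X81.ErdosGallai.dg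
  rw [← Set.ncard_coe_finset]
  congr 1
  ext x
  simp

lemma EG_of_graphic {n : ℕ} {a : ℕ → ℕ} (h : Graphic n a) (r : ℕ) (hr : r ≤ n) :
    ∑ i ∈ range r, (a i : ℤ) ≤ r * (r - 1) + ∑ i ∈ range (n - r), (a (r + i) : ℤ) := by
  classical
  obtain ⟨G, hG⟩ := h
  let S : Finset (Fin n) := univ.filter (fun i => (i : ℕ) < r)
  let T : Finset (Fin n) := univ.filter (fun i => ¬ (i : ℕ) < r)
  have hdeg : ∀ i : Fin n, (a i : ℤ) = ∑ j ∈ S, (if G.Adj i j then (1 : ℤ) else 0) +
      ∑ j ∈ T, (if G.Adj i j then (1 : ℤ) else 0) := by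
    intro i
    rw [sum_filter_add_sum_filter_not univ (fun j : Fin n => (j : ℕ) < r)
      (fun j => if G.Adj i j then (1 : ℤ) else 0)]
    rw [← hG i, sum_boole, ← Set.ncard_coe_finset]
    congr 2
    ext x
    simp
  have hSc : S.card = r := by
    have : S = (range r).attachFin (by intro m hm; rw [mem_range] at hm; omega) := by
      ext x
      simp [S]
    rw [this, card_attachFin, card_range]
  have e1 : ∑ i ∈ range r, (a i : ℤ) = ∑ i ∈ S, (a i : ℤ) := by
    symm
    rw [← sum_image (s := S) (g := fun i : Fin n => (i : ℕ)) (f := fun i => (a i : ℤ))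
      (by intro x _ y _ hxy; exact Fin.ext hxy)]
    congr 1
    ext x
    simp only [S, mem_image, mem_filter, mem_univ, true_and, mem_range]
    constructor
    · rintro ⟨y, hy, rfl⟩; exact hy
    · intro hx; exact ⟨⟨x, by omega⟩, hx, rfl⟩
  have e2 : ∑ i ∈ range (n - r), (a (r + i) : ℤ) = ∑ i ∈ T, (a i : ℤ) := by
    apply sum_bij (fun i (hi : i ∈ range (n - r)) =>
      (⟨r + i, by rw [mem_range] at hi; omega⟩ : Fin n))
    · intro i _
      simp only [T, mem_filter, mem_univ, true_and]
      omega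
    · intro i _ j _ hij
      have := congrArg Fin.val hij
      simp only at this
      omega
    · intro y hy
      simp only [T, mem_filter, mem_univ, true_and] at hy
      refine ⟨(y : ℕ) - r, ?_, ?_⟩
      · rw [mem_range]
        have := y.2
        omega
      · apply Fin.ext
        change r + ((y : ℕ) - r) = y
        omega
    · intro i _
      rfl
  rw [e1, e2]
  have h1 : ∑ i ∈ S, (a i : ℤ) = ∑ i ∈ S, ∑ j ∈ S, (if G.Adj i j then (1 : ℤ) else 0) +
      ∑ i ∈ S, ∑ j ∈ T, (if G.Adj i j then (1 : ℤ) else 0) := by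
    rw [← sum_add_distrib]
    exact sum_congr rfl fun i _ => hdeg i
  have h2 : ∑ i ∈ S, ∑ j ∈ S, (if G.Adj i j then (1 : ℤ) else 0) ≤ r * (r - 1) := by
    have h3 : ∀ i ∈ S, ∑ j ∈ S, (if G.Adj i j then (1 : ℤ) else 0) ≤ (r : ℤ) - 1 := by
      intro i hi
      rw [← add_sum_erase S _ hi]
      have h4 : ∑ j ∈ S.erase i, (if G.Adj i j then (1 : ℤ) else 0) ≤
          ∑ j ∈ S.erase i, (1 : ℤ) := by
        apply sum_le_sum
        intro j _
        split_ifs <;> norm_num
      rw [sum_const, card_erase_of_mem hi, hSc] at h4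
      have h5 : 0 < r := by rw [← hSc]; exact card_pos.2 ⟨i, hi⟩
      simp only [SimpleGraph.irrefl, if_false, zero_add]
      refine h4.trans ?_
      simp only [nsmul_eq_mul, mul_one]
      rw [Nat.cast_sub h5]
      simp
    refine (sum_le_sum h3).trans ?_
    rw [sum_const, hSc, nsmul_eq_mul]
  have h3 : ∑ i ∈ S, ∑ j ∈ T, (if G.Adj i j then (1 : ℤ) else 0) ≤ ∑ j ∈ T, (a j : ℤ) := by
    rw [sum_comm]
    apply sum_le_sum
    intro j _
    rw [hdeg j]
    have h4 : ∑ i ∈ S, (if G.Adj i j then (1 : ℤ) else 0) =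
        ∑ i ∈ S, (if G.Adj j i then (1 : ℤ) else 0) := by
      apply sum_congr rfl
      intro i _
      simp only [G.adj_comm]
    rw [h4]
    have h5 : 0 ≤ ∑ i ∈ T, (if G.Adj j i then (1 : ℤ) else 0) := by
      apply sum_nonneg
      intro i _
      split_ifs <;> norm_num
    linarith
  linarith

/-! ### upper bound -/

/-- `⌊(k+s+1)²/4⌋ - A (k - s - A d)` -/
def M (k s d A : ℤ) : ℤ := (k + s + 1) ^ 2 / 4 - A * (k - s - A * d)

lemma floor_sq (K : ℤ) : K ^ 2 - 1 ≤ 4 * (K ^ 2 / 4) ∧ 4 * (K ^ 2 / 4) ≤ K ^ 2 := by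
  rcases Int.even_or_odd K with ⟨m, hm⟩ | ⟨m, hm⟩
  · have : K ^ 2 = 4 * m ^ 2 := by rw [hm]; ring
    omega
  · have : K ^ 2 = 4 * (m ^ 2 + m) + 1 := by rw [hm]; ring
    omega

lemma top_sum {k s d n : ℕ} {a : ℕ → ℕ} (h : InL k s d n a) (r : ℕ) (hr : r < n) (α : ℕ) :
    2 * ∑ i ∈ range r, (a i : ℤ) ≤
      2 * r * k - (2 * α * ((k : ℤ) - a r - d) - d * (α * (α - 1))) := by
  have h1 := sumLow (fun i => (k : ℤ) - a (r - 1 - i)) r ((k : ℤ) - a r - d) d
    (Int.natCast_nonneg d) (by
      intro i hi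
      have := h.le_k (r - 1 - i) (by omega)
      omega) (by
      intro i hi
      have := h.tele (r - 1 - i) (i + 1) (by omega)
      rw [show r - 1 - i + (i + 1) = r by omega] at this
      have h2 : (a (r - 1 - i) : ℤ) ≤ a r + (i + 1) * d := by exact_mod_cast this
      linarith) (by
      have := h.tele 0 r (by omega)
      rw [zero_add, h.first] at this
      have h2 : (k : ℤ) ≤ a r + r * d := by exact_mod_cast this
      have h3 : (0 : ℤ) ≤ d := Int.natCast_nonneg d
      linarith) α
  rw [sum_sub_distrib, sum_const, card_range, nsmul_eq_mul,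
    sum_range_reflect (fun i => (a i : ℤ)) r] at h1
  linarith

lemma caseA {k s d n : ℕ} {a : ℕ → ℕ} (h : InL k s d n a) (r : ℕ) (hr : r < n) (A : ℕ) :
    ∑ i ∈ range r, (a i : ℤ) - r * (r - 1) - ∑ i ∈ range (n - r), (a (r + i) : ℤ) ≤
      r * ((k : ℤ) + s + 1 - r) - s * n - A * (k - s - A * d) := by
  have h1 := top_sum h r hr A
  have h2 := sumLow (fun i => (a (r + i) : ℤ) - s) (n - r) ((a r : ℤ) - s) d
    (Int.natCast_nonneg d) (by
      intro i hi
      have := h.ge_s (r + i) (by omega)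
      omega) (by
      intro i hi
      have := h.tele r i (by omega)
      have h2 : (a r : ℤ) ≤ a (r + i) + i * d := by exact_mod_cast this
      linarith) (by
      have := h.tele r (n - 1 - r) (by omega)
      rw [show r + (n - 1 - r) = n - 1 by omega, h.last] at this
      have h2 : (a r : ℤ) ≤ s + (n - 1 - r : ℕ) * d := by exact_mod_cast this
      have h3 : ((n - r : ℕ) : ℤ) = (n - 1 - r : ℕ) + 1 := by omega
      rw [h3]
      have h4 : (0 : ℤ) ≤ d := Int.natCast_nonneg d
      linarith) A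
  rw [sum_sub_distrib, sum_const, card_range, nsmul_eq_mul, Nat.cast_sub hr.le] at h2
  have h3 : 2 * (∑ i ∈ range r, (a i : ℤ) - r * (r - 1) - ∑ i ∈ range (n - r), (a (r + i) : ℤ)) ≤
      2 * (r * ((k : ℤ) + s + 1 - r) - s * n - A * (k - s - A * d)) := by
    linarith
  linarith

lemma caseB0 {k s d n : ℕ} {a : ℕ → ℕ} (h : InL k s d n a) (r : ℕ) (hr : r < n) (hsr : s < r)
    (c : ℕ) (hc0 : 1 ≤ c) (hc1 : ((c : ℤ) - 1) * d + 1 ≤ (a r : ℤ) - r)
    (hc2 : (a r : ℤ) - r ≤ c * d) (α β : ℕ) :
    2 * (∑ i ∈ range r, (a i : ℤ) - r * (r - 1) -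
      ∑ i ∈ range (n - r), min (r : ℤ) (a (r + i))) ≤
      2 * (r * ((k : ℤ) + s + 1 - r) - s * n) -
      (2 * α * ((k : ℤ) - a r - d) - d * (α * (α - 1))) -
      (2 * c * (r - s) + (2 * β * ((a r : ℤ) - c * d - s) - d * (β * (β - 1)))) := by
  have h1 := top_sum h r hr α
  have hd : (0 : ℤ) ≤ d := Int.natCast_nonneg d
  have hlast : (a r : ℤ) ≤ s + (n - 1 - r : ℕ) * d := by
    have := h.tele r (n - 1 - r) (by omega)
    rw [show r + (n - 1 - r) = n - 1 by omega, h.last] at this
    exact_mod_cast this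
  have hcn : c ≤ n - 1 - r := by
    by_contra hcon
    have h5 : ((n - 1 - r : ℕ) : ℤ) ≤ (c : ℤ) - 1 := by omega
    have h6 : ((n - 1 - r : ℕ) : ℤ) * d ≤ ((c : ℤ) - 1) * d :=
      mul_le_mul_of_nonneg_right h5 hd
    have h7 : (s : ℤ) < r := by exact_mod_cast hsr
    linarith
  have htele : ∀ i, i < n - r → (a r : ℤ) ≤ a (r + i) + i * d := by
    intro i hi
    have := h.tele r i (by omega)
    exact_mod_cast this
  have hges : ∀ i, i < n - r → (s : ℤ) ≤ a (r + i) := by
    intro i hi
    have := h.ge_s (r + i) (by omega)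
    exact_mod_cast this
  have hsr' : (s : ℤ) ≤ r := by exact_mod_cast hsr.le
  have h2 := sumLow (fun i => min (r : ℤ) (a (r + (c + i))) - s) (n - r - c)
    ((a r : ℤ) - c * d - s) d hd (by
      intro i hi
      have := hges (c + i) (by omega)
      have h3 : (s : ℤ) ≤ min (r : ℤ) (a (r + (c + i))) := le_min hsr' this
      linarith) (by
      intro i hi
      have h3 := htele (c + i) (by omega)
      push_cast at h3
      have h4 : (0 : ℤ) ≤ i * d := mul_nonneg (Int.natCast_nonneg i) hd
      have h5 : (a r : ℤ) - c * d - i * d ≤ min (r : ℤ) (a (r + (c + i))) := by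
        apply le_min
        · linarith
        · linarith
      linarith) (by
      have h3 : ((n - r - c : ℕ) : ℤ) = (n - 1 - r : ℕ) + 1 - c := by omega
      rw [h3]
      linarith) β
  have h3 : ∑ i ∈ range (n - r), min (r : ℤ) (a (r + i)) =
      c * r + ∑ i ∈ range (n - r - c), min (r : ℤ) (a (r + (c + i))) := by
    have e0 : n - r = c + (n - r - c) := by omega
    conv_lhs => rw [e0]
    rw [sum_range_add]
    congr 1
    rw [← nsmul_eq_mul, ← card_range c, ← sum_const, card_range]
    apply sum_congr rfl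
    intro i hi
    rw [mem_range] at hi
    apply min_eq_left
    have h4 := htele i (by omega)
    have h5 : (i : ℤ) ≤ (c : ℤ) - 1 := by omega
    have h6 : (i : ℤ) * d ≤ ((c : ℤ) - 1) * d := mul_le_mul_of_nonneg_right h5 hd
    linarith
  rw [sum_sub_distrib, sum_const, card_range, nsmul_eq_mul] at h2
  have h4 : ((n - r - c : ℕ) : ℤ) = n - r - c := by omega
  rw [h4] at h2
  rw [h3]
  linarith

lemma caseB {k s d n : ℕ} {a : ℕ → ℕ} (h : InL k s d n a) (hd : 1 ≤ d) (r : ℕ) (hr : r < n)
    (hsr : s < r) (hb : r < a r) (A : ℕ)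
    (hA : (k : ℤ) - s - d + 1 ≤ 2 * A * d) :
    ∑ i ∈ range r, (a i : ℤ) - r * (r - 1) -
      ∑ i ∈ range (n - r), min (r : ℤ) (a (r + i)) ≤ M k s d A - 1 - s * n := by
  have hd' : (1 : ℤ) ≤ d := by exact_mod_cast hd
  have hsr' : (s : ℤ) + 1 ≤ r := by exact_mod_cast hsr
  have hbk : (a r : ℤ) ≤ k := by exact_mod_cast h.le_k r hr
  obtain ⟨c, hc0, hc1, hc2⟩ : ∃ c : ℕ, 1 ≤ c ∧ ((c : ℤ) - 1) * d + 1 ≤ (a r : ℤ) - r ∧
      (a r : ℤ) - r ≤ c * d := by
    refine ⟨(a r - r - 1) / d + 1, Nat.le_add_left 1 _, ?_, ?_⟩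
    · have h1 := Nat.div_mul_le_self (a r - r - 1) d
      have h2 : (((a r - r - 1) / d : ℕ) : ℤ) * d ≤ ((a r - r - 1 : ℕ) : ℤ) := by
        exact_mod_cast h1
      have h3 : ((a r - r - 1 : ℕ) : ℤ) = (a r : ℤ) - r - 1 := by omega
      rw [h3] at h2
      rw [Nat.cast_add, Nat.cast_one]
      linarith
    · have h1 := Nat.lt_div_mul_add (a := a r - r - 1) (b := d) (by omega)
      have h2 : ((a r - r - 1 : ℕ) : ℤ) < (((a r - r - 1) / d : ℕ) : ℤ) * d + d := by
        exact_mod_cast h1
      have h3 : ((a r - r - 1 : ℕ) : ℤ) = (a r : ℤ) - r - 1 := by omega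
      rw [h3] at h2
      rw [Nat.cast_add, Nat.cast_one]
      linarith
  have hcA : (c : ℤ) - 1 ≤ 2 * A := by
    by_contra hcon
    push Not at hcon
    have h1 : (2 * (A : ℤ)) ≤ c - 2 := by omega
    have h2 : (2 * (A : ℤ)) * d ≤ (c - 2) * d := mul_le_mul_of_nonneg_right h1 (by linarith)
    linarith
  have hc0' : (1 : ℤ) ≤ c := by exact_mod_cast hc0
  obtain ⟨hf1, hf2⟩ := floor_sq ((k : ℤ) + s + 1)
  -- it suffices to prove the inequality with `K²/4` replaced by a quarter of a square
  suffices hmain : ∃ E : ℤ, (∑ i ∈ range r, (a i : ℤ) - r * (r - 1) -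
      ∑ i ∈ range (n - r), min (r : ℤ) (a (r + i))) = E ∧
      4 * (E + s * n + A * (k - s - A * d)) ≤ ((k : ℤ) + s + 1) ^ 2 - 4 by
    obtain ⟨E, hE, hE2⟩ := hmain
    rw [hE]
    unfold M
    omega
  refine ⟨_, rfl, ?_⟩
  rcases Nat.even_or_odd c with ⟨γ, hγ⟩ | ⟨γ, hγ⟩
  · -- c = 2γ
    have hγA : γ ≤ A := by omega
    obtain ⟨α, rfl⟩ := Nat.exists_eq_add_of_le hγA
    have h1 := caseB0 h r hr hsr c hc0 hc1 hc2 α α
    have hcγ : (c : ℤ) = 2 * γ := by rw [hγ]; push_cast; ring
    have hγ1 : (1 : ℤ) ≤ γ := by omega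
    rw [hcγ] at h1
    push_cast
    nlinarith [sq_nonneg ((k : ℤ) + s + 1 - 2 * r - 2 * γ), mul_nonneg (sq_nonneg (γ : ℤ))
      (sub_nonneg.2 hd')]
  · -- c = 2γ+1
    have hcγ : (c : ℤ) = 2 * γ + 1 := by rw [hγ]; push_cast; ring
    rcases Nat.lt_or_ge γ A with hlt | hge
    · -- A ≥ γ + 1
      obtain ⟨α, rfl⟩ := Nat.exists_eq_add_of_lt hlt
      have h1 := caseB0 h r hr hsr c hc0 hc1 hc2 α (α + 1)
      rw [hcγ] at h1 hc1
      have hγ1 : (0 : ℤ) ≤ γ := Int.natCast_nonneg γ
      push_cast at h1 ⊢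
      nlinarith [sq_nonneg ((k : ℤ) + s + 1 - 2 * r - 2 * γ - 2), mul_nonneg
        (mul_nonneg hγ1 (by linarith : (0 : ℤ) ≤ γ + 2)) (sub_nonneg.2 hd')]
    · -- A = γ
      have hγA : γ = A := by omega
      subst hγA
      have h1 := caseB0 h r hr hsr c hc0 hc1 hc2 0 0
      rw [hcγ] at h1 hc1
      have hγ1 : (0 : ℤ) ≤ γ := Int.natCast_nonneg γ
      push_cast at h1 ⊢
      nlinarith [sq_nonneg ((k : ℤ) + s + 1 - 2 * r - 2 * γ - 1), mul_nonneg
        (mul_nonneg hγ1 (by linarith : (0 : ℤ) ≤ γ + 1)) (sub_nonneg.2 hd')]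

lemma M_lower {k s d : ℕ} (hs : 1 ≤ s) (hk : s < k) (hd : 1 ≤ d) (A : ℕ)
    (hA : (0 : ℤ) ≤ (k : ℤ) - s - A * d) : (s : ℤ) * k + 2 ≤ M k s d A := by
  obtain ⟨hf1, hf2⟩ := floor_sq ((k : ℤ) + s + 1)
  have hs' : (1 : ℤ) ≤ s := by exact_mod_cast hs
  have hk' : (s : ℤ) + 1 ≤ k := by exact_mod_cast hk
  have hd' : (1 : ℤ) ≤ d := by exact_mod_cast hd
  have hA0 : (0 : ℤ) ≤ A := Int.natCast_nonneg A
  have h1 : 4 * ((A : ℤ) * (k - s - A * d)) ≤ ((k : ℤ) - s) ^ 2 := by
    have h2 : 0 ≤ (A : ℤ) * (k - s - A * d) * (d - 1) :=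
      mul_nonneg (mul_nonneg hA0 hA) (by linarith)
    nlinarith [sq_nonneg ((k : ℤ) - s - 2 * A * d)]
  have h3 : 4 * ((s : ℤ) * k) + 4 * s + 2 * (k - s) ≤
      4 * (((k : ℤ) + s + 1) ^ 2 / 4) - 4 * ((A : ℤ) * (k - s - A * d)) := by
    nlinarith
  unfold M
  omega

lemma upper {k s d n : ℕ} {a : ℕ → ℕ} (hs : 1 ≤ s) (hk : s < k) (hd : 1 ≤ d)
    (h : InL k s d n a) (A : ℕ) (hA : (k : ℤ) - s - d + 1 ≤ 2 * A * d)
    (hA2 : (0 : ℤ) ≤ (k : ℤ) - s - A * d) (hn : M k s d A - 1 ≤ s * n) : Graphic n a := by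
  have hM := M_lower hs hk hd A hA2
  have hs' : (1 : ℤ) ≤ s := by exact_mod_cast hs
  have hkn : k < n := by
    by_contra hcon
    have h1 : (n : ℤ) ≤ k := by exact_mod_cast (not_lt.1 hcon)
    have h2 : (s : ℤ) * n ≤ s * k := mul_le_mul_of_nonneg_left h1 (by linarith)
    linarith
  have hkn' : (k : ℤ) + 1 ≤ n := by exact_mod_cast hkn
  apply graphic_of_EG h.anti h.even
  intro r hr1 hrn
  have hr1' : (1 : ℤ) ≤ r := by exact_mod_cast hr1
  have htop : ∑ i ∈ range r, (a i : ℤ) ≤ r * k := by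
    have : ∑ i ∈ range r, (a i : ℤ) ≤ ∑ i ∈ range r, (k : ℤ) := by
      apply sum_le_sum
      intro i hi
      rw [mem_range] at hi
      exact_mod_cast h.le_k i (by omega)
    rw [sum_const, card_range, nsmul_eq_mul] at this
    exact this
  rcases Nat.lt_or_ge r n with hr | hr
  · by_cases hb : a r ≤ r
    · have h1 := caseA h r hr A
      have h2 : ∑ i ∈ range (n - r), min (r : ℤ) (a (r + i)) =
          ∑ i ∈ range (n - r), (a (r + i) : ℤ) := by
        apply sum_congr rfl
        intro i hi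
        rw [mem_range] at hi
        apply min_eq_right
        have := h.mono r i (by omega)
        exact_mod_cast this.trans hb
      rw [h2]
      obtain ⟨hf1, hf2⟩ := floor_sq ((k : ℤ) + s + 1)
      have h3 : (r : ℤ) * ((k : ℤ) + s + 1 - r) ≤ ((k : ℤ) + s + 1) ^ 2 / 4 := by
        have : 4 * ((r : ℤ) * ((k : ℤ) + s + 1 - r)) ≤ ((k : ℤ) + s + 1) ^ 2 := by
          nlinarith [sq_nonneg ((k : ℤ) + s + 1 - 2 * r)]
        omega
      have hpar : Even (∑ i ∈ range r, (a i : ℤ) - r * (r - 1) -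
          ∑ i ∈ range (n - r), (a (r + i) : ℤ)) := by
        have e1 : ∑ i ∈ range n, (a i : ℤ) = ∑ i ∈ range r, (a i : ℤ) +
            ∑ i ∈ range (n - r), (a (r + i) : ℤ) := by
          rw [← sum_range_add, show r + (n - r) = n by omega]
        have e2 : Even (∑ i ∈ range n, (a i : ℤ)) := by
          have := h.even
          have h5 : Even ((∑ i ∈ range n, a i : ℕ) : ℤ) := by exact_mod_cast this
          push_cast at h5
          exact h5
        have e3 : Even ((r : ℤ) * (r - 1)) := by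
          rcases Int.even_or_odd (r : ℤ) with h6 | h6
          · exact h6.mul_right _
          · exact (h6.sub_odd odd_one).mul_left _
        rw [e1] at e2
        obtain ⟨u, hu⟩ := e2
        obtain ⟨v, hv⟩ := e3
        refine ⟨u - v - ∑ i ∈ range (n - r), (a (r + i) : ℤ), ?_⟩
        linarith
      obtain ⟨u, hu⟩ := hpar
      unfold M at hn
      have h4 : u + u ≤ 1 := by
        rw [← hu]
        linarith
      have h5 : u + u ≤ 0 := by omega
      linarith
    · push Not at hb
      by_cases hsr : s < r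
      · have h1 := caseB h hd r hr hsr hb A hA
        linarith
      · push Not at hsr
        have h2 : ∑ i ∈ range (n - r), min (r : ℤ) (a (r + i)) = (n - r) * r := by
          have : ∑ i ∈ range (n - r), min (r : ℤ) (a (r + i)) = ∑ i ∈ range (n - r), (r : ℤ) := by
            apply sum_congr rfl
            intro i hi
            rw [mem_range] at hi
            apply min_eq_left
            have := h.ge_s (r + i) (by omega)
            exact_mod_cast hsr.trans this
          rw [this, sum_const, card_range, nsmul_eq_mul, Nat.cast_sub hr.le]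
        rw [h2]
        have : (r : ℤ) * k ≤ r * (n - 1) := mul_le_mul_of_nonneg_left (by linarith) (by linarith)
        linarith
  · have hrn' : r = n := by omega
    subst hrn'
    simp only [Nat.sub_self, range_zero, sum_empty, add_zero]
    have : (r : ℤ) * k ≤ r * (r - 1) := mul_le_mul_of_nonneg_left (by linarith) (by linarith)
    linarith

/-! ### lower bound: the extremal lists -/

/-- The extremal list (for `e = 0`) and its modification with sum smaller by one (`e = 1`). -/
def lst (k s d r b i0 e p : ℕ) : ℕ :=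
  if p ≤ r then (if r - p ≤ i0 then min (k - e) (b + (r - p) * d) else k)
  else max s (b - (p - r) * d)

section Construction

variable {k s d r b i0 n : ℕ}

lemma lst_le {e p : ℕ} (hp : p ≤ r) (hi : r - p ≤ i0) :
    lst k s d r b i0 e p = min (k - e) (b + (r - p) * d) := by
  unfold lst; rw [if_pos hp, if_pos hi]

lemma lst_top {e p : ℕ} (hp : p ≤ r) (hi : i0 < r - p) : lst k s d r b i0 e p = k := by
  unfold lst; rw [if_pos hp, if_neg (not_le.2 hi)]

lemma lst_gt {e p : ℕ} (hp : r < p) : lst k s d r b i0 e p = max s (b - (p - r) * d) := by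
  unfold lst; rw [if_neg (not_le.2 hp)]

lemma lst_steps (hd : 1 ≤ d) (hsb : s ≤ b) (hbk : b + 1 ≤ k) (hi2 : k ≤ b + i0 * d)
    {e : ℕ} (he : e ≤ 1) (i : ℕ) :
    lst k s d r b i0 e (i + 1) ≤ lst k s d r b i0 e i ∧
      lst k s d r b i0 e i - lst k s d r b i0 e (i + 1) ≤ d := by
  rcases Nat.lt_or_ge i r with hir | hir
  · obtain ⟨t, ht⟩ : ∃ t, r - (i + 1) = t := ⟨_, rfl⟩
    have ht1 : r - i = t + 1 := by omega
    have hm : (t + 1) * d = t * d + d := by ring
    rcases Nat.lt_trichotomy t i0 with h | h | h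
    · rw [lst_le (by omega) (by omega), lst_le (by omega) (by omega), ht, ht1, hm]
      omega
    · rw [lst_le (by omega) (by omega), lst_top (by omega) (by omega), ht, h]
      omega
    · rw [lst_top (by omega) (by omega), lst_top (by omega) (by omega)]
      omega
  · rcases Nat.eq_or_lt_of_le hir with h | h
    · subst h
      rw [lst_gt (by omega), lst_le le_rfl (by omega)]
      simp only [Nat.sub_self, zero_mul, add_zero]
      rw [show r + 1 - r = 1 by omega, one_mul]
      omega
    · rw [lst_gt (by omega), lst_gt (by omega)]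
      obtain ⟨t, ht⟩ : ∃ t, i - r = t := ⟨_, rfl⟩
      have ht1 : i + 1 - r = t + 1 := by omega
      have hm : (t + 1) * d = t * d + d := by ring
      rw [ht, ht1, hm]
      omega

lemma lst_sum (hi0 : 1 ≤ i0) (hir : i0 + 1 ≤ r) (hrn : r < n)
    (hi1 : b + (i0 - 1) * d + 1 ≤ k) (hi2 : k ≤ b + i0 * d) :
    ∑ i ∈ range n, lst k s d r b i0 0 i = ∑ i ∈ range n, lst k s d r b i0 1 i + 1 := by
  have h1 : ∀ i ∈ range n, lst k s d r b i0 0 i = lst k s d r b i0 1 i +
      (if i = r - i0 then 1 else 0) := by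
    intro i _
    rcases Nat.lt_or_ge r i with h | h
    · rw [lst_gt h, lst_gt h, if_neg (by omega)]; rfl
    · rcases Nat.lt_trichotomy (r - i) i0 with h2 | h2 | h2
      · rw [lst_le h (by omega), lst_le h (by omega), if_neg (by omega)]
        have h3 : (r - i) * d ≤ (i0 - 1) * d := Nat.mul_le_mul_right d (by omega)
        omega
      · rw [lst_le h (by omega), lst_le h (by omega), if_pos (by omega), h2]
        omega
      · rw [lst_top h h2, lst_top h h2, if_neg (by omega)]; rfl
  rw [sum_congr rfl h1, sum_add_distrib, sum_ite_eq' (range n) (r - i0) (fun _ => 1),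
    if_pos (by rw [mem_range]; omega)]

lemma lst_excess (hi0 : 1 ≤ i0) (hir : i0 + 1 ≤ r) (hrn : r < n) (hsb : s ≤ b)
    (hbk : b + 1 ≤ k) (hi1 : b + (i0 - 1) * d + 1 ≤ k) (hi2 : k ≤ b + i0 * d)
    {e : ℕ} (he : e ≤ 1) (A : ℕ)
    (hx1 : (A : ℤ) * d ≤ (k : ℤ) - b) (hx2 : (k : ℤ) - b ≤ (A + 1) * d)
    (hy1 : ((A : ℤ) - 1) * d ≤ (b : ℤ) - s) (hy2 : (b : ℤ) - s ≤ A * d) :
    (r : ℤ) * (k + s + 1 - r) - s * n - A * (k - s - A * d) - e ≤
      ∑ i ∈ range r, (lst k s d r b i0 e i : ℤ) - r * (r - 1) -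
      ∑ i ∈ range (n - r), (lst k s d r b i0 e (r + i) : ℤ) := by
  have hd : (0 : ℤ) ≤ d := Int.natCast_nonneg d
  have he' : (e : ℤ) ≤ 1 := by exact_mod_cast he
  have h1 := sumHigh (fun i => ((k : ℤ) - lst k s d r b i0 e (r - 1 - i)) -
      (if i = i0 - 1 then (e : ℤ) else 0)) r ((k : ℤ) - b - d) d hd A (by
      intro i hi
      have hp : r - (r - 1 - i) = i + 1 := by omega
      rcases Nat.lt_trichotomy (i + 1) i0 with h2 | h2 | h2
      · rw [lst_le (by omega) (by omega), if_neg (by omega), hp]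
        have h3 : (i + 1) * d ≤ (i0 - 1) * d := Nat.mul_le_mul_right d (by omega)
        rw [min_eq_right (by omega)]
        push_cast
        refine le_trans (le_of_eq ?_) (le_max_right _ _)
        ring
      · rw [lst_le (by omega) (by omega), if_pos (by omega), hp, h2]
        rw [min_eq_left (by omega)]
        refine le_trans ?_ (le_max_left _ _)
        rw [Nat.cast_sub (by omega)]
        linarith
      · rw [lst_top (by omega) (by omega), if_neg (by omega)]
        refine le_trans ?_ (le_max_left _ _)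
        linarith) (by linarith) (by linarith)
  rw [sum_sub_distrib, sum_sub_distrib, sum_const, card_range, nsmul_eq_mul,
    sum_range_reflect (fun i => (lst k s d r b i0 e i : ℤ)) r,
    sum_ite_eq' (range r) (i0 - 1) (fun _ => (e : ℤ)),
    if_pos (by rw [mem_range]; omega)] at h1
  have h2 := sumHigh (fun i => (lst k s d r b i0 e (r + i) : ℤ) - s) (n - r) ((b : ℤ) - s) d hd A
    (by
      intro i _
      rcases Nat.eq_zero_or_pos i with h3 | h3
      · subst h3
        rw [add_zero, lst_le le_rfl (by omega)]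
        simp only [Nat.sub_self, zero_mul, add_zero]
        rw [min_eq_right (by omega)]
        refine le_trans (le_of_eq ?_) (le_max_right _ _)
        simp
      · rw [lst_gt (by omega), show r + i - r = i by omega]
        have h4 : (i : ℤ) * d = ((i * d : ℕ) : ℤ) := by push_cast; rfl
        rw [h4]
        omega) hy1 hy2
  rw [sum_sub_distrib, sum_const, card_range, nsmul_eq_mul, Nat.cast_sub hrn.le] at h2
  have h3 : 2 * ((r : ℤ) * (k + s + 1 - r) - s * n - A * (k - s - A * d) - e) ≤
      2 * (∑ i ∈ range r, (lst k s d r b i0 e i : ℤ) - r * (r - 1) -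
      ∑ i ∈ range (n - r), (lst k s d r b i0 e (r + i) : ℤ)) := by
    linarith
  linarith

end Construction

/-- A non-graphic list of length `n` with `s n ≤ M - 2`, when there is room. -/
lemma lower {k s d n : ℕ} (hs : 1 ≤ s) (hk : s < k) (hd : 1 ≤ d) (A : ℕ) (hA1 : 1 ≤ A)
    (hA2 : (2 * (A : ℤ) - 1) * d ≤ (k : ℤ) - s) (hA3 : (k : ℤ) - s ≤ (2 * A + 1) * d)
    (hn : (s : ℤ) * n ≤ M k s d A - 2) (L : ℕ)
    (hL : min ((A : ℤ) * d) ((k : ℤ) - s - A * d) ≤ L * d)
    (hroom : (k + s + 1) / 2 + L + 1 ≤ n) :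
    ∃ a : ℕ → ℕ, InL k s d n a ∧ ¬ Graphic n a := by
  obtain ⟨r, hr⟩ : ∃ r, (k + s + 1) / 2 = r := ⟨_, rfl⟩
  rw [hr] at hroom
  have hd' : (1 : ℤ) ≤ d := by exact_mod_cast hd
  have hA1' : (1 : ℤ) ≤ A := by exact_mod_cast hA1
  have hAd : (A : ℤ) ≤ A * d := by nlinarith
  -- the parameters `b` and `i0`
  obtain ⟨b, i0, hb, hi0, hir, hbk, hi1, hi2, hx1, hx2, hy1, hy2⟩ : ∃ b i0 : ℕ,
      (b : ℤ) = s + min ((A : ℤ) * d) ((k : ℤ) - s - A * d) ∧ 1 ≤ i0 ∧ i0 + 1 ≤ r ∧ b + 1 ≤ k ∧
      b + (i0 - 1) * d + 1 ≤ k ∧ k ≤ b + i0 * d ∧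
      (A : ℤ) * d ≤ (k : ℤ) - b ∧ (k : ℤ) - b ≤ (A + 1) * d ∧
      ((A : ℤ) - 1) * d ≤ (b : ℤ) - s ∧ (b : ℤ) - s ≤ A * d := by
    rcases le_or_gt ((k : ℤ) - s) (2 * A * d) with h | h
    · have hmin : min ((A : ℤ) * d) ((k : ℤ) - s - A * d) = (k : ℤ) - s - A * d :=
        min_eq_right (by linarith)
      have hA0 : (0 : ℤ) ≤ ((A : ℤ) - 1) * d := mul_nonneg (by linarith) (by linarith)
      have hnn : (0 : ℤ) ≤ (k : ℤ) - A * d := by
        have : (0 : ℤ) ≤ s := Int.natCast_nonneg s
        linarith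
      refine ⟨((k : ℤ) - A * d).toNat, A, ?_, hA1, ?_, ?_, ?_, ?_, ?_, ?_, ?_, ?_⟩
      · rw [Int.toNat_of_nonneg hnn, hmin]; ring
      · have : 2 * (A : ℤ) - 1 ≤ (k : ℤ) - s := by
          have : (2 * (A : ℤ) - 1) * 1 ≤ (2 * (A : ℤ) - 1) * d :=
            mul_le_mul_of_nonneg_left hd' (by linarith)
          linarith
        omega
      · zify
        rw [Int.toNat_of_nonneg hnn]
        linarith
      · zify
        rw [Int.toNat_of_nonneg hnn, Nat.cast_sub hA1]
        push_cast
        linarith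
      · zify
        rw [Int.toNat_of_nonneg hnn]
        linarith
      all_goals
        rw [Int.toNat_of_nonneg hnn]
        linarith
    · have hmin : min ((A : ℤ) * d) ((k : ℤ) - s - A * d) = (A : ℤ) * d :=
        min_eq_left (by linarith)
      refine ⟨s + A * d, A + 1, ?_, by omega, ?_, ?_, ?_, ?_, ?_, ?_, ?_, ?_⟩
      · rw [hmin]; push_cast; ring
      · have : 2 * (A : ℤ) + 1 ≤ (k : ℤ) - s := by linarith
        omega
      · zify
        linarith
      · zify
        rw [show A + 1 - 1 = A by omega]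
        linarith
      · zify
        linarith
      all_goals
        push_cast
        linarith
  have hsb : s ≤ b := by
    have : (0 : ℤ) ≤ ((A : ℤ) - 1) * d := mul_nonneg (by linarith) (by linarith)
    have : (s : ℤ) ≤ b := by linarith
    exact_mod_cast this
  have hrn : r < n := by omega
  have hlast : b ≤ s + (n - 1 - r) * d := by
    have h1 : (b : ℤ) ≤ s + L * d := by linarith
    have h2 : b ≤ s + L * d := by exact_mod_cast h1
    have h3 : L * d ≤ (n - 1 - r) * d := Nat.mul_le_mul_right d (by omega)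
    omega
  -- choose the parity
  obtain ⟨e, he, heven⟩ : ∃ e : ℕ, e ≤ 1 ∧ Even (∑ i ∈ range n, lst k s d r b i0 e i) := by
    rcases Nat.even_or_odd (∑ i ∈ range n, lst k s d r b i0 0 i) with h | h
    · exact ⟨0, by omega, h⟩
    · refine ⟨1, le_rfl, ?_⟩
      rw [lst_sum hi0 hir hrn hi1 hi2] at h
      by_contra hcon
      rw [Nat.not_even_iff_odd] at hcon
      have := hcon.add_odd odd_one
      exact (Nat.not_even_iff_odd.2 h) this
  refine ⟨lst k s d r b i0 e, ⟨by omega, ?_, ?_, ?_, ?_, heven⟩, ?_⟩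
  · exact lst_top (by omega) (by omega)
  · rcases Nat.eq_or_lt_of_le (show r ≤ n - 1 by omega) with h | h
    · rw [← h, lst_le le_rfl (by omega)]
      simp only [Nat.sub_self, zero_mul, add_zero]
      have h1 : n - 1 - r = 0 := by omega
      rw [h1, zero_mul] at hlast
      omega
    · rw [lst_gt h]
      omega
  · intro i _
    exact (lst_steps hd hsb hbk hi2 he i).1
  · intro i _
    exact (lst_steps hd hsb hbk hi2 he i).2
  · intro hG
    have h1 := EG_of_graphic hG r hrn.le
    have h2 := lst_excess (n := n) hi0 hir hrn hsb hbk hi1 hi2 he A hx1 hx2 hy1 hy2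
    have h3 : (r : ℤ) * (k + s + 1 - r) = ((k : ℤ) + s + 1) ^ 2 / 4 := by
      rcases Nat.even_or_odd (k + s + 1) with ⟨m, hm⟩ | ⟨m, hm⟩
      · have hrm : r = m := by omega
        have hK : (k : ℤ) + s + 1 = 2 * m := by exact_mod_cast (by omega : k + s + 1 = 2 * m)
        rw [hrm, hK]
        have : ((2 * (m : ℤ)) ^ 2) = 4 * (m * (2 * m - m)) := by ring
        rw [this]
        omega
      · have hrm : r = m := by omega
        have hK : (k : ℤ) + s + 1 = 2 * m + 1 := by exact_mod_cast hm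
        rw [hrm, hK]
        have : ((2 * (m : ℤ) + 1) ^ 2) = 4 * (m * (2 * m + 1 - m)) + 1 := by ring
        rw [this]
        omega
    have h4 : (e : ℤ) ≤ 1 := by exact_mod_cast he
    unfold M at hn
    linarith

/-- a list of length at most `k` is not graphic -/
lemma not_graphic_of_short {k s d n : ℕ} {a : ℕ → ℕ} (h : InL k s d n a) (hn : n ≤ k) :
    ¬ Graphic n a := by
  rintro ⟨G, hG⟩
  have h0 := h.pos
  have h1 := hG ⟨0, h0⟩
  have h2 : (G.neighborSet ⟨0, h0⟩).ncard < Nat.card (Fin n) := by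
    apply Set.ncard_lt_card
    intro hu
    have : (⟨0, h0⟩ : Fin n) ∈ G.neighborSet ⟨0, h0⟩ := by rw [hu]; trivial
    simp at this
  rw [h1, Nat.card_eq_fintype_card, Fintype.card_fin] at h2
  change a 0 < n at h2
  rw [h.first] at h2
  omega

lemma cnt (n j : ℕ) (h : j ≤ n) : ∑ p ∈ range n, (if p < j then 1 else 0) = j := by
  rw [← sum_filter, show (range n).filter (fun p => p < j) = range j by
    ext x; simp only [mem_filter, mem_range]; omega]
  simp

lemma special_one {s n : ℕ} (hs : 2 ≤ s) (hn : n = s + 1) :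
    ∃ a : ℕ → ℕ, InL (s + 1) s 1 n a ∧ ¬ Graphic n a := by
  subst hn
  obtain ⟨j, hj1, hj2, hj3⟩ : ∃ j, 1 ≤ j ∧ j ≤ 2 ∧ Even ((s + 1) * s + j) := by
    have h : Even ((s + 1) * s) := by rw [mul_comm]; exact Nat.even_mul_succ_self s
    exact ⟨2, by omega, le_rfl, h.add (by decide)⟩
  have hL : InL (s + 1) s 1 (s + 1) (fun p => s + (if p < j then 1 else 0)) := by
    refine ⟨by omega, ?_, ?_, ?_, ?_, ?_⟩
    · change s + (if 0 < j then 1 else 0) = s + 1
      rw [if_pos (by omega)]
    · change s + (if s + 1 - 1 < j then 1 else 0) = s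
      rw [if_neg (by omega)]; rfl
    · intro i _
      split_ifs <;> omega
    · intro i _
      split_ifs <;> omega
    · rw [sum_add_distrib, sum_const, card_range, cnt _ _ (by omega), smul_eq_mul]
      exact hj3
  exact ⟨_, hL, not_graphic_of_short hL le_rfl⟩

lemma special_two {s n : ℕ} (hs : 1 ≤ s) (hn : n = s + 2) :
    ∃ a : ℕ → ℕ, InL (s + 2) s 1 n a ∧ ¬ Graphic n a := by
  subst hn
  obtain ⟨j, hj1, hj2, hj3⟩ : ∃ j, 2 ≤ j ∧ j ≤ s + 1 ∧ Even ((s + 2) * s + 1 + j) := by
    rcases Nat.even_or_odd s with h | h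
    · have hs2 : 2 ≤ s := by
        rcases h with ⟨m, hm⟩
        omega
      refine ⟨3, by omega, by omega, ?_⟩
      have : Even ((s + 2) * s) := h.mul_left _
      have h2 : Even ((s + 2) * s + 4) := this.add (by decide)
      exact h2
    · refine ⟨2, by omega, by omega, ?_⟩
      have h2 : Odd ((s + 2) * s) := (h.add_even (by decide)).mul h
      have h3 : Even ((s + 2) * s + 3) := h2.add_odd (by decide)
      exact h3
  have hL : InL (s + 2) s 1 (s + 2)
      (fun p => s + (if p < 1 then 1 else 0) + (if p < j then 1 else 0)) := by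
    refine ⟨by omega, ?_, ?_, ?_, ?_, ?_⟩
    · change s + (if 0 < 1 then 1 else 0) + (if 0 < j then 1 else 0) = s + 2
      rw [if_pos (by omega), if_pos (by omega)]
    · change s + (if s + 2 - 1 < 1 then 1 else 0) + (if s + 2 - 1 < j then 1 else 0) = s
      rw [if_neg (by omega), if_neg (by omega)]; rfl
    · intro i _
      split_ifs <;> omega
    · intro i _
      split_ifs <;> omega
    · rw [sum_add_distrib, sum_add_distrib, sum_const, card_range, cnt _ _ (by omega),
        cnt _ _ (by omega), smul_eq_mul]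
      exact hj3
  exact ⟨_, hL, not_graphic_of_short hL le_rfl⟩

lemma exists_bad {k s d n : ℕ} (hs : 1 ≤ s) (hk : s < k) (hd : 1 ≤ d) (A : ℕ) (hA1 : 1 ≤ A)
    (hA2 : (2 * (A : ℤ) - 1) * d ≤ (k : ℤ) - s) (hA3 : (k : ℤ) - s + 1 ≤ (2 * A + 1) * d)
    (hdk : d ≤ k - s) (hex : ¬ (k = 2 ∧ s = 1))
    (hn1 : (s : ℤ) * n ≤ M k s d A - 2) (hn2 : M k s d A - 2 < (s : ℤ) * (n + 1)) :
    ∃ a : ℕ → ℕ, InL k s d n a ∧ ¬ Graphic n a := by
  have hs' : (1 : ℤ) ≤ s := by exact_mod_cast hs
  have hA1' : (1 : ℤ) ≤ A := by exact_mod_cast hA1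
  -- room from an inequality for `M`
  have room : ∀ X : ℕ, (s : ℤ) * X + 2 ≤ M k s d A → X ≤ n := by
    intro X hX
    by_contra hcon
    have h1 : (n : ℤ) + 1 ≤ X := by omega
    have h2 : (s : ℤ) * (n + 1) ≤ s * X := mul_le_mul_of_nonneg_left h1 (by linarith)
    linarith
  obtain ⟨D, hD⟩ : ∃ D, k = s + D := ⟨k - s, by omega⟩
  subst hD
  have hD1 : 1 ≤ D := by omega
  have hdD : d ≤ D := by omega
  have hMeven : ∀ h : ℕ, D = 2 * h → M (s + D : ℕ) s d A =
      ((h : ℤ) + s) * (h + s + 1) - A * (2 * h - A * d) := by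
    intro h hh
    subst hh
    unfold M
    push_cast
    have : ((s : ℤ) + 2 * h + s + 1) ^ 2 = 4 * ((h + s) * (h + s + 1)) + 1 := by ring
    rw [this]
    have h2 : (4 * (((h : ℤ) + s) * (h + s + 1)) + 1) / 4 = (h + s) * (h + s + 1) := by omega
    rw [h2]
    ring
  have hModd : ∀ h : ℕ, D = 2 * h + 1 → M (s + D : ℕ) s d A =
      ((h : ℤ) + s + 1) * (h + s + 1) - A * (2 * h + 1 - A * d) := by
    intro h hh
    subst hh
    unfold M
    push_cast
    have : ((s : ℤ) + (2 * h + 1) + s + 1) ^ 2 = 4 * ((h + s + 1) * (h + s + 1)) := by ring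
    rw [this]
    have h2 : (4 * (((h : ℤ) + s + 1) * (h + s + 1))) / 4 = (h + s + 1) * (h + s + 1) := by omega
    rw [h2]
    ring
  have hA3' : ((s + D : ℕ) : ℤ) - s ≤ (2 * A + 1) * d := by linarith
  rcases Nat.lt_or_ge d 2 with hd2 | hd2
  · -- d = 1
    have hd1 : d = 1 := by omega
    subst hd1
    rcases Nat.lt_or_ge D 3 with hD3 | hD3
    · -- special cases
      have hA : A = 1 := by
        push_cast at hA2 hA3
        omega
      subst hA
      rcases (by omega : D = 1 ∨ D = 2) with h1 | h1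
      · subst h1
        have hs2 : 2 ≤ s := by omega
        apply special_one hs2
        rw [hModd 0 rfl] at hn1 hn2
        push_cast at hn1 hn2
        have e1 : (n : ℤ) ≤ s + 1 := by
          by_contra hcon
          have : (s : ℤ) * (s + 2) ≤ s * n := mul_le_mul_of_nonneg_left (by omega) (by linarith)
          nlinarith
        have e2 : (s : ℤ) + 1 ≤ n := by
          by_contra hcon
          have : (s : ℤ) * (n + 1) ≤ s * (s + 1) :=
            mul_le_mul_of_nonneg_left (by omega) (by linarith)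
          nlinarith
        omega
      · subst h1
        apply special_two hs
        rw [hMeven 1 rfl] at hn1 hn2
        push_cast at hn1 hn2
        have e1 : (n : ℤ) ≤ s + 2 := by
          by_contra hcon
          have : (s : ℤ) * (s + 3) ≤ s * n := mul_le_mul_of_nonneg_left (by omega) (by linarith)
          nlinarith
        have e2 : (s : ℤ) + 2 ≤ n := by
          by_contra hcon
          have : (s : ℤ) * (n + 1) ≤ s * (s + 2) :=
            mul_le_mul_of_nonneg_left (by omega) (by linarith)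
          nlinarith
        omega
    · rcases Nat.even_or_odd' D with ⟨h, hh | hh⟩
      · have hA : A = h := by
          push_cast at hA2 hA3
          omega
        subst hA
        apply lower hs (by omega) le_rfl A hA1 hA2 hA3' hn1 A (by push_cast; exact min_le_left _ _)
        apply room
        rw [hMeven A hh]
        have e : (s + D + s + 1) / 2 = A + s := by omega
        rw [e]
        push_cast
        have : (2 : ℤ) ≤ A := by omega
        nlinarith
      · have hA : A = h + 1 := by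
          push_cast at hA2 hA3
          omega
        subst hA
        apply lower hs (by omega) le_rfl (h + 1) hA1 hA2 hA3' hn1 h (by
          refine (min_le_right _ _).trans ?_
          rw [hh]
          push_cast
          linarith)
        apply room
        rw [hModd h hh]
        have e : (s + D + s + 1) / 2 = h + s + 1 := by omega
        rw [e]
        push_cast
        have : (1 : ℤ) ≤ h := by omega
        nlinarith
  · have hd' : (2 : ℤ) ≤ d := by exact_mod_cast hd2
    apply lower hs (by omega) hd A hA1 hA2 hA3' hn1 A (min_le_left _ _)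
    apply room
    have h4A : 4 * (A : ℤ) - 2 ≤ D := by
      have : (2 * (A : ℤ) - 1) * 2 ≤ (2 * (A : ℤ) - 1) * d :=
        mul_le_mul_of_nonneg_left hd' (by linarith)
      push_cast at hA2
      linarith
    have hnn : (0 : ℤ) ≤ (D : ℤ) - A * d := by
      have h1 : (0 : ℤ) ≤ ((A : ℤ) - 1) * d := mul_nonneg (by linarith) (by linarith)
      push_cast at hA2
      linarith
    have hf : 8 * ((A : ℤ) * (D - A * d)) ≤ D ^ 2 := by
      have h2 : 0 ≤ (A : ℤ) * (D - A * d) * (d - 2) :=
        mul_nonneg (mul_nonneg (by linarith) hnn) (by linarith)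
      nlinarith [sq_nonneg ((D : ℤ) - 2 * A * d)]
    rcases Nat.even_or_odd' D with ⟨h, hh | hh⟩
    · rw [hMeven h hh]
      have e : (s + D + s + 1) / 2 = h + s := by omega
      rw [e]
      have hDh : (D : ℤ) = 2 * h := by exact_mod_cast hh
      rw [hDh] at hf h4A
      have h1 : (1 : ℤ) ≤ h := by omega
      have hAh : (A : ℤ) ≤ h := by omega
      have h2 : 0 ≤ (s : ℤ) * (h - A) := mul_nonneg (by linarith) (by linarith)
      obtain ⟨f, hfd⟩ : ∃ f : ℤ, (A : ℤ) * (2 * h - A * d) = f := ⟨_, rfl⟩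
      rw [hfd] at hf ⊢
      have h5 : 1 ≤ (h : ℤ) * h := by nlinarith
      have h3 : 2 * ((h : ℤ) * h + h - f) ≥ 3 := by
        have : 8 * f ≤ 4 * ((h : ℤ) * h) := by linarith
        linarith
      have h4 : ((h : ℤ) * h + h - f) ≥ 2 := by omega
      have e3 : ((h : ℤ) + s) * (h + s + 1) - f - ((s : ℤ) * ((h + s + A + 1 : ℕ) : ℤ) + 2) =
          ((h : ℤ) * h + h - f - 2) + s * (h - A) := by push_cast; ring
      linarith
    · rw [hModd h hh]
      have e : (s + D + s + 1) / 2 = h + s + 1 := by omega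
      rw [e]
      have hDh : (D : ℤ) = 2 * h + 1 := by exact_mod_cast hh
      rw [hDh] at hf h4A
      have h1 : (1 : ℤ) ≤ h := by omega
      have hAh : (A : ℤ) ≤ h := by omega
      have h2 : 0 ≤ (s : ℤ) * (h - A) := mul_nonneg (by linarith) (by linarith)
      obtain ⟨f, hfd⟩ : ∃ f : ℤ, (A : ℤ) * (2 * h + 1 - A * d) = f := ⟨_, rfl⟩
      rw [hfd] at hf ⊢
      have h5 : (h : ℤ) ≤ (h : ℤ) * h := by nlinarith
      have h4 : (((h : ℤ) + 1) * (h + 1) - f) ≥ 2 := by
        have : 8 * f ≤ 4 * ((h : ℤ) * h) + 4 * h + 1 := by linarith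
        have h6 : ((h : ℤ) + 1) * (h + 1) = h * h + 2 * h + 1 := by ring
        rw [h6]
        omega
      have e3 : ((h : ℤ) + s + 1) * (h + s + 1) - f -
          ((s : ℤ) * ((h + s + 1 + A + 1 : ℕ) : ℤ) + 2) =
          (((h : ℤ) + 1) * (h + 1) - f - 2) + s * (h - A) := by push_cast; ring
      linarith

/-- **The graphicality threshold.** For all `k > s ≥ 1` and `1 ≤ d ≤ k - s` with
`(k,s) ≠ (2,1)`, put `A = ⌊(k-s+d)/(2d)⌋`.  Then
`N(k,s,d) = ⌊(⌊(k+s+1)²/4⌋ - A (k - s - A d) - 2) / s⌋ + 1`: every list of `L(k,s,d)` of length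
at least this number is graphic, and some list of `L(k,s,d)` of length exactly one less is not.
For `(k,s,d) = (2,1,1)` every list of `L(k,s,d)` is graphic. -/
theorem result (k s d : ℕ) (hs : 1 ≤ s) (hk : s < k) (hd : 1 ≤ d) (hdk : d ≤ k - s) :
    (¬ (k = 2 ∧ s = 1) → ∀ A : ℤ, A = ((k : ℤ) - s + d) / (2 * d) →
      (threshold k s d : ℤ) =
        (((k : ℤ) + s + 1) ^ 2 / 4 - A * (k - s - A * d) - 2) / s + 1 ∧
      IsLeast (Good k s d) (threshold k s d) ∧
      ∃ a : ℕ → ℕ, InL k s d (threshold k s d - 1) a ∧ ¬ Graphic (threshold k s d - 1) a) ∧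
    (k = 2 ∧ s = 1 → ∀ (n : ℕ) (a : ℕ → ℕ), InL k s d n a → Graphic n a) := by
  have hs' : (1 : ℤ) ≤ s := by exact_mod_cast hs
  have hd' : (1 : ℤ) ≤ d := by exact_mod_cast hd
  have hdk' : (d : ℤ) ≤ (k : ℤ) - s := by omega
  constructor
  · intro hex A hA
    have hdiv1 : A * (2 * d) ≤ (k : ℤ) - s + d := by
      rw [hA]; exact Int.ediv_mul_le _ (by linarith)
    have hdiv2 : (k : ℤ) - s + d < (A + 1) * (2 * d) := by
      rw [hA]; exact Int.lt_ediv_add_one_mul_self _ (by linarith)
    have hA1 : 1 ≤ A := by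
      by_contra hcon
      have h1 : A + 1 ≤ 1 := by omega
      have h2 : (A + 1) * (2 * (d : ℤ)) ≤ 1 * (2 * d) :=
        mul_le_mul_of_nonneg_right h1 (by linarith)
      linarith
    obtain ⟨B, hB⟩ := Int.eq_ofNat_of_zero_le (by linarith : (0 : ℤ) ≤ A)
    rw [hB] at hdiv1 hdiv2 hA1 ⊢
    have hB1 : 1 ≤ B := by exact_mod_cast hA1
    have hB2 : (2 * (B : ℤ) - 1) * d ≤ (k : ℤ) - s := by linarith
    have hB3 : (k : ℤ) - s + 1 ≤ (2 * B + 1) * d := by linarith
    have hB4 : (0 : ℤ) ≤ (k : ℤ) - s - B * d := by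
      have h1 : (0 : ℤ) ≤ ((B : ℤ) - 1) * d := mul_nonneg (by linarith) (by linarith)
      linarith
    have hM := M_lower hs hk hd B hB4
    have hM0 : 0 ≤ (M k s d B - 2) / s := by
      apply Int.ediv_nonneg _ (by linarith)
      have : (0 : ℤ) ≤ (s : ℤ) * k := by positivity
      linarith
    obtain ⟨n0, hn0⟩ := Int.eq_ofNat_of_zero_le hM0
    have hn1 : (s : ℤ) * n0 ≤ M k s d B - 2 := by
      rw [← hn0, mul_comm]
      exact Int.ediv_mul_le _ (by linarith)
    have hn2 : M k s d B - 2 < (s : ℤ) * (n0 + 1) := by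
      rw [← hn0, mul_comm]
      exact Int.lt_ediv_add_one_mul_self _ (by linarith)
    obtain ⟨a, ha1, ha2⟩ := exists_bad hs hk hd B hB1 hB2 hB3 hdk hex hn1 hn2
    have hleast : IsLeast (Good k s d) (n0 + 1) := by
      constructor
      · intro n hn a' ha'
        apply upper hs hk hd ha' B (by linarith) hB4
        have h1 : (n0 : ℤ) + 1 ≤ n := by exact_mod_cast hn
        have h2 : (s : ℤ) * (n0 + 1) ≤ s * n := mul_le_mul_of_nonneg_left h1 (by linarith)
        omega
      · intro N hN
        by_contra hcon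
        exact ha2 (hN n0 (by omega) a ha1)
    have hthr : threshold k s d = n0 + 1 := hleast.csInf_eq
    rw [hthr]
    refine ⟨?_, hleast, a, ha1, ha2⟩
    unfold M at hn0
    rw [hn0]
    push_cast
    ring
  · rintro ⟨rfl, rfl⟩ n a h
    have hd1 : d = 1 := by omega
    subst hd1
    have h1 := h.pos
    have h2 := h.first
    have h3 := h.last
    rcases Nat.lt_or_ge n 3 with h4 | h4
    · exfalso
      have h5 := h.even
      rcases (by omega : n = 1 ∨ n = 2) with h6 | h6
      · subst h6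
        simp only [Nat.sub_self] at h3
        omega
      · subst h6
        rw [sum_range_succ, sum_range_succ, sum_range_zero, h2, show a 1 = 1 from h3] at h5
        revert h5
        decide
    · apply upper (A := 1) le_rfl (by norm_num) le_rfl h (by norm_num) (by norm_num)
      unfold M
      push_cast
      have : (3 : ℤ) ≤ n := by exact_mod_cast h4
      norm_num
      linarith

end Pool.Agent.Results.MP_5122c5_co.ExactThreshold
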